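import Pool.Agent.H10.BL.Stmts

/-!
# BL, row BLT: exceptions to `c < rad (a b c)`-type inequalities, counted by the height
-/

set_option autoImplicit false

namespace Pool.BL

open Finset Pool.Agent.H98.ABCR Pool.SHA

namespace BLT

/-- dyadic summation -/
theorem dya (f : ℕ × ℕ → ℕ) (γ δ M X : ℝ) (hδ : 0 < δ) (hM : 0 ≤ M) (hX : 1 ≤ X)
    (F : Finset (ℕ × ℕ)) (hF : ∀ v ∈ F, (f v : ℝ) ≤ X)
    (h : ∀ j ≤ Nat.log 2 ⌊X⌋₊,
      ((F.filter (fun v => Nat.log 2 (f v) = j)).card : ℝ) ≤ M * X ^ γ) :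
    (F.card : ℝ) ≤ (2 / δ + 1) * M * X ^ (γ + δ) := by
  classical
  have hX0 : 0 < X := by linarith
  have hcard : F.card = ∑ j ∈ Finset.range (Nat.log 2 ⌊X⌋₊ + 1),
      (F.filter (fun v => Nat.log 2 (f v) = j)).card := by
    apply Finset.card_eq_sum_card_fiberwise
    intro v hv
    rw [Finset.mem_coe, Finset.mem_range, Nat.lt_succ_iff]
    exact Nat.log_mono_right (Nat.le_floor (hF v hv))
  have hlog : ((Nat.log 2 ⌊X⌋₊ + 1 : ℕ) : ℝ) ≤ (2 / δ + 1) * X ^ δ := by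
    have h0 : ⌊X⌋₊ ≠ 0 := by
      have : 1 ≤ ⌊X⌋₊ := Nat.le_floor (by exact_mod_cast hX)
      omega
    have h1 : ((2 : ℝ)) ^ (Nat.log 2 ⌊X⌋₊) ≤ X := by
      have h2 := Nat.pow_log_le_self 2 h0
      exact le_trans (by exact_mod_cast h2) (Nat.floor_le hX0.le)
    have h2 : (Nat.log 2 ⌊X⌋₊ : ℝ) * Real.log 2 ≤ Real.log X := by
      rw [← Real.log_pow]
      exact Real.log_le_log (by positivity) h1
    have h3 : Real.log X ≤ X ^ δ / δ := Real.log_le_rpow_div hX0.le hδ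
    have h4 : (1 : ℝ) / 2 ≤ Real.log 2 := by
      have := Real.log_two_gt_d9
      linarith
    have h5 : (Nat.log 2 ⌊X⌋₊ : ℝ) ≤ 2 * Real.log X := by
      have h6 : (0 : ℝ) ≤ (Nat.log 2 ⌊X⌋₊ : ℝ) := Nat.cast_nonneg _
      nlinarith
    have h6 : 1 ≤ X ^ δ := Real.one_le_rpow hX hδ.le
    push_cast
    calc (Nat.log 2 ⌊X⌋₊ : ℝ) + 1 ≤ 2 * (X ^ δ / δ) + X ^ δ := by linarith
      _ = (2 / δ + 1) * X ^ δ := by ring
  have hγ : 0 < X ^ γ := Real.rpow_pos_of_pos hX0 _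
  rw [hcard, Nat.cast_sum]
  calc ∑ j ∈ Finset.range (Nat.log 2 ⌊X⌋₊ + 1),
        ((F.filter (fun v => Nat.log 2 (f v) = j)).card : ℝ)
      ≤ ∑ _j ∈ Finset.range (Nat.log 2 ⌊X⌋₊ + 1), M * X ^ γ := by
        refine Finset.sum_le_sum fun j hj => h j ?_
        rw [Finset.mem_range] at hj
        omega
    _ = ((Nat.log 2 ⌊X⌋₊ + 1 : ℕ) : ℝ) * (M * X ^ γ) := by
        rw [Finset.sum_const, nsmul_eq_mul, Finset.card_range]
    _ ≤ ((2 / δ + 1) * X ^ δ) * (M * X ^ γ) :=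
        mul_le_mul_of_nonneg_right hlog (mul_nonneg hM hγ.le)
    _ = (2 / δ + 1) * M * (X ^ γ * X ^ δ) := by ring
    _ = (2 / δ + 1) * M * X ^ (γ + δ) := by rw [← Real.rpow_add hX0]

/-- one dyadic class of the height -/
theorem cls (lam ε C : ℝ) (hl0 : 0 < lam) (hl1 : lam ≤ 1)
    (hW : ∀ (X : ℝ) (F : Finset (ℕ × ℕ)) (a : Fin 3), 1 ≤ X →
      (∀ v ∈ F, IsTri v ∧ (RR v : ℝ) ≤ X ∧ hh v ≤ (1 / lam) * Real.log X ∧
        ∀ i, i ≠ a → X / 4 ≤ (coord v i : ℝ)) →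
      (F.card : ℝ) ≤ C * X ^ (3 / 5 + ε))
    (Z : ℝ) (hZ : 1 ≤ Z) (F : Finset (ℕ × ℕ))
    (hF : ∀ v ∈ F, IsTri v ∧ ((v.1 + v.2 : ℕ) : ℝ) ≤ Z ∧ Z / 2 ≤ ((v.1 + v.2 : ℕ) : ℝ) ∧
      (RR v : ℝ) ≤ ((v.1 + v.2 : ℕ) : ℝ) ^ lam) :
    (F.card : ℝ) ≤ 2 * C * Z ^ (lam * (3 / 5 + ε)) := by
  classical
  have hZ0 : 0 < Z := by linarith
  have hX1 : 1 ≤ Z ^ lam := Real.one_le_rpow hZ hl0.le
  have hXZ : Z ^ lam ≤ Z := by
    calc Z ^ lam ≤ Z ^ (1 : ℝ) := Real.rpow_le_rpow_of_exponent_le hZ hl1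
      _ = Z := Real.rpow_one Z
  have hlog : (1 / lam) * Real.log (Z ^ lam) = Real.log Z := by
    rw [Real.log_rpow hZ0, ← mul_assoc, one_div, inv_mul_cancel₀ hl0.ne', one_mul]
  have hpow : (Z ^ lam) ^ (3 / 5 + ε) = Z ^ (lam * (3 / 5 + ε)) := by
    rw [← Real.rpow_mul hZ0.le]
  have base : ∀ v ∈ F, IsTri v ∧ (RR v : ℝ) ≤ Z ^ lam ∧ hh v ≤ (1 / lam) * Real.log (Z ^ lam) := by
    intro v hv
    obtain ⟨t1, t2, t3, t4⟩ := hF v hv
    have hpos : (0 : ℝ) < ((v.1 + v.2 : ℕ) : ℝ) := by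
      obtain ⟨u1, u2, -⟩ := t1
      exact_mod_cast (by omega : 0 < v.1 + v.2)
    refine ⟨t1, t4.trans (Real.rpow_le_rpow hpos.le t2 hl0.le), ?_⟩
    rw [hlog]
    calc hh v = Real.log ((v.1 + v.2 : ℕ) : ℝ) := rfl
      _ ≤ Real.log Z := Real.log_le_log hpos t2
  have e1 : ((F.filter (fun v => v.2 ≤ v.1)).card : ℝ) ≤ C * Z ^ (lam * (3 / 5 + ε)) := by
    rw [← hpow]
    refine hW (Z ^ lam) _ 1 hX1 ?_
    intro v hv
    rw [Finset.mem_filter] at hv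
    obtain ⟨hvF, h21⟩ := hv
    obtain ⟨b1, b2, b3⟩ := base v hvF
    obtain ⟨t1, t2, t3, t4⟩ := hF v hvF
    have h21' : (v.2 : ℝ) ≤ v.1 := by exact_mod_cast h21
    push_cast at t3
    refine ⟨b1, b2, b3, ?_⟩
    intro i hi
    fin_cases i
    · show Z ^ lam / 4 ≤ (v.1 : ℝ)
      linarith
    · exact absurd rfl hi
    · show Z ^ lam / 4 ≤ ((v.1 + v.2 : ℕ) : ℝ)
      push_cast
      linarith
  have e2 : ((F.filter (fun v => ¬ v.2 ≤ v.1)).card : ℝ) ≤ C * Z ^ (lam * (3 / 5 + ε)) := by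
    rw [← hpow]
    refine hW (Z ^ lam) _ 0 hX1 ?_
    intro v hv
    rw [Finset.mem_filter] at hv
    obtain ⟨hvF, h21⟩ := hv
    obtain ⟨b1, b2, b3⟩ := base v hvF
    obtain ⟨t1, t2, t3, t4⟩ := hF v hvF
    have h21' : (v.1 : ℝ) ≤ v.2 := by exact_mod_cast (not_le.1 h21).le
    push_cast at t3
    refine ⟨b1, b2, b3, ?_⟩
    intro i hi
    fin_cases i
    · exact absurd rfl hi
    · show Z ^ lam / 4 ≤ (v.2 : ℝ)
      linarith
    · show Z ^ lam / 4 ≤ ((v.1 + v.2 : ℕ) : ℝ)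
      push_cast
      linarith
  have e3 : (F.card : ℝ) = ((F.filter (fun v => v.2 ≤ v.1)).card : ℝ) +
      ((F.filter (fun v => ¬ v.2 ≤ v.1)).card : ℝ) := by
    rw [← Finset.card_filter_add_card_filter_not (s := F) (fun v : ℕ × ℕ => v.2 ≤ v.1)]
    push_cast
    ring
  rw [e3]
  linarith

end BLT

open BLT in
/-- **BLT**. -/
theorem blt_thm (h1 : S_CLW) : S_BLT := by
  classical
  intro lam ε hl0 hl1 hε
  have hk : 1 ≤ 1 / lam := by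
    rw [le_div_iff₀ hl0]
    linarith
  obtain ⟨C, hC, hW⟩ := h1 (1 / lam) (ε / 2) hk (by linarith)
  have hg : 0 < lam * (3 / 5 + ε / 2) := mul_pos hl0 (by linarith)
  obtain ⟨γ, hγ⟩ : ∃ γ, γ = lam * (3 / 5 + ε / 2) := ⟨_, rfl⟩
  have hg' : 0 < γ := by rw [hγ]; exact hg
  have h2γ : 1 ≤ (2 : ℝ) ^ γ := Real.one_le_rpow (by norm_num) hg'.le
  obtain ⟨M, hM⟩ : ∃ M : ℝ, M = 2 * C * (2 : ℝ) ^ γ := ⟨_, rfl⟩
  have hM1 : 1 ≤ M := by
    rw [hM]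
    nlinarith
  have hδ : 0 < ε / 2 := by linarith
  have hCC : 1 ≤ (2 / (ε / 2) + 1) * M := by
    have : 1 ≤ 2 / (ε / 2) + 1 := by
      have : 0 ≤ 2 / (ε / 2) := by positivity
      linarith
    nlinarith
  refine ⟨(2 / (ε / 2) + 1) * M, hCC, ?_⟩
  intro H F hH hF
  have hH0 : 0 < H := by linarith
  have key := dya (fun v => v.1 + v.2) γ (ε / 2) M H hδ (by linarith) hH F
    (fun v hv => (hF v hv).2.1) (by
    intro j hj
    have hZ1 : (1 : ℝ) ≤ (2 : ℝ) ^ (j + 1) := one_le_pow₀ (by norm_num)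
    have h4 := cls lam (ε / 2) C hl0 hl1 hW ((2 : ℝ) ^ (j + 1)) hZ1
      (F.filter (fun v => Nat.log 2 (v.1 + v.2) = j)) (by
      intro v hv
      rw [Finset.mem_filter] at hv
      obtain ⟨hvF, hvj⟩ := hv
      obtain ⟨t1, t2, t3⟩ := hF v hvF
      have hpos : 0 < v.1 + v.2 := by
        obtain ⟨u1, u2, -⟩ := t1
        omega
      have h5 : v.1 + v.2 < 2 ^ (j + 1) := by
        rw [← hvj]; exact Nat.lt_pow_succ_log_self (by norm_num) _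
      have h6 : 2 ^ j ≤ v.1 + v.2 := by
        rw [← hvj]; exact Nat.pow_log_le_self 2 (by omega)
      have h5' : ((v.1 + v.2 : ℕ) : ℝ) ≤ (2 : ℝ) ^ (j + 1) := by exact_mod_cast h5.le
      have h6' : (2 : ℝ) ^ j ≤ ((v.1 + v.2 : ℕ) : ℝ) := by exact_mod_cast h6
      refine ⟨t1, h5', ?_, t3⟩
      rw [pow_succ]
      linarith)
    rw [← hγ] at h4
    refine h4.trans ?_
    have h5 : (2 : ℝ) ^ (j + 1) ≤ 2 * H := by
      have h6 : 2 ^ j ≤ ⌊H⌋₊ := by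
        refine le_trans (Nat.pow_le_pow_right (by norm_num) hj) (Nat.pow_log_le_self 2 ?_)
        have : 1 ≤ ⌊H⌋₊ := Nat.le_floor (by exact_mod_cast hH)
        omega
      have h7 : ((2 : ℝ)) ^ j ≤ H := le_trans (by exact_mod_cast h6) (Nat.floor_le hH0.le)
      rw [pow_succ]; linarith
    calc 2 * C * ((2 : ℝ) ^ (j + 1)) ^ γ ≤ 2 * C * (2 * H) ^ γ :=
          mul_le_mul_of_nonneg_left (Real.rpow_le_rpow (by positivity) h5 hg'.le) (by linarith)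
      _ = M * H ^ γ := by
          rw [Real.mul_rpow (by norm_num) hH0.le, hM]
          ring)
  refine key.trans ?_
  refine mul_le_mul_of_nonneg_left ?_ (by linarith)
  refine Real.rpow_le_rpow_of_exponent_le hH ?_
  rw [hγ]
  nlinarith

end Pool.BL
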